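import Pool.Agent.Helper18.EC.LatticeCore
import Pool.Agent.Helper15.EC.Div
import Pool.Agent.Helper45.EC.Lift

/-!
# EC-C4: lattices in the coordinate ring of the smoothing
-/

set_option autoImplicit false

namespace Pool.Agent.Helper18.EC

open Polynomial TensorProduct Pool.Agent.Helper34.EC

variable {k : Type} [Field k] {g : ℕ}

/-- EC-C4 -/
theorem exists_lattice (c : Pts k g) (M : ℕ) : ∃ (n : ℕ) (e : Fin n → c.A),
    (∀ j, e j ∈ c.AM M) ∧ (∀ f ∈ c.AM M, ∃ r : Fin n → PowerSeries k, f = ∑ j, r j • e j) ∧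
    LinearIndependent k (fun j => PowerSeries.coeff 0 (c.ps (e j))) ∧
    (2 * g ≤ M + 1 → n + g = M + 1) :=
  exists_lattice_of c M
    (fun f hf hM h0 => Pool.Agent.Helper15.EC.exists_div c.c c.inj M f hf hM h0)
    (fun hM P hP hg => Pool.Agent.Helper45.EC.exists_lift c.c c.inj M hM P hP hg)

end Pool.Agent.Helper18.EC
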