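import Pool.Agent.Helper34.EC.Defs

/-!
# EC-C4: lattices in the coordinate ring of the smoothing
-/

set_option autoImplicit false

namespace Pool.Agent.Helper18.EC

open Polynomial TensorProduct Pool.Agent.Helper34.EC

section core

variable {k : Type} [Field k] {g : ℕ}

theorem ps_smul (c : Pts k g) (r : PowerSeries k) (f : c.A) :
    c.ps (r • f) = io c.c r * c.ps f := by
  rw [Algebra.smul_def, map_mul, Pts.ps_algebraMap]

theorem io_C (c : Pts k g) (a : k) : io c.c (PowerSeries.C a) = PowerSeries.C (C a) := by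
  ext n : 1
  rw [coeff_io, PowerSeries.coeff_C, PowerSeries.coeff_C]
  split_ifs with h
  · subst h
    simp
  · simp

theorem io_X (c : Pts k g) : io c.c PowerSeries.X = PowerSeries.C (DD c.c) * PowerSeries.X := by
  ext n : 1
  rw [coeff_io, PowerSeries.coeff_X, PowerSeries.coeff_C_mul, PowerSeries.coeff_X]
  split_ifs with h
  · subst h
    simp
  · simp

theorem coeff_C_smul (c : Pts k g) (a : k) (f : c.A) (n : ℕ) :
    PowerSeries.coeff n (c.ps ((PowerSeries.C a : PowerSeries k) • f)) =
      C a * PowerSeries.coeff n (c.ps f) := by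
  rw [ps_smul, io_C, PowerSeries.coeff_C_mul]

/-- The bounded elements, as an additive subgroup closed under the constants. -/
theorem AM_zero (c : Pts k g) (M : ℕ) : (0 : c.A) ∈ c.AM M := by
  intro n
  rw [map_zero]
  simp

theorem AM_add (c : Pts k g) {M : ℕ} {f h : c.A} (hf : f ∈ c.AM M) (hh : h ∈ c.AM M) :
    f + h ∈ c.AM M := by
  intro n
  rw [map_add, map_add]
  exact (natDegree_add_le _ _).trans (max_le (hf n) (hh n))

theorem AM_neg (c : Pts k g) {M : ℕ} {f : c.A} (hf : f ∈ c.AM M) : -f ∈ c.AM M := by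
  intro n
  rw [map_neg, map_neg, natDegree_neg]
  exact hf n

theorem AM_sub (c : Pts k g) {M : ℕ} {f h : c.A} (hf : f ∈ c.AM M) (hh : h ∈ c.AM M) :
    f - h ∈ c.AM M := by
  rw [sub_eq_add_neg]
  exact AM_add c hf (AM_neg c hh)

theorem AM_C_smul (c : Pts k g) {M : ℕ} (a : k) {f : c.A} (hf : f ∈ c.AM M) :
    (PowerSeries.C a : PowerSeries k) • f ∈ c.AM M := by
  intro n
  rw [coeff_C_smul]
  exact (natDegree_C_mul_le _ _).trans (hf n)

theorem AM_sum (c : Pts k g) {M : ℕ} {ι : Type} (s : Finset ι) (F : ι → c.A)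
    (h : ∀ i ∈ s, F i ∈ c.AM M) : ∑ i ∈ s, F i ∈ c.AM M := by
  classical
  induction s using Finset.induction_on with
  | empty => simpa using AM_zero c M
  | insert i s hi ih =>
    rw [Finset.sum_insert hi]
    exact AM_add c (h i (Finset.mem_insert_self _ _))
      (ih fun j hj => h j (Finset.mem_insert_of_mem hj))

/-- The special fibre of the bounded elements. -/
def WW (c : Pts k g) (M : ℕ) : Submodule k k[X] where
  carrier := {P | ∃ f ∈ c.AM M, PowerSeries.coeff 0 (c.ps f) = P}
  zero_mem' := ⟨0, AM_zero c M, by simp⟩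
  add_mem' := by
    rintro _ _ ⟨f, hf, rfl⟩ ⟨h, hh, rfl⟩
    exact ⟨f + h, AM_add c hf hh, by rw [map_add, map_add]⟩
  smul_mem' := by
    rintro a _ ⟨f, hf, rfl⟩
    exact ⟨(PowerSeries.C a : PowerSeries k) • f, AM_C_smul c a hf, by
      rw [coeff_C_smul, smul_eq_C_mul]⟩

theorem mem_WW (c : Pts k g) (M : ℕ) (P : k[X]) :
    P ∈ WW c M ↔ ∃ f ∈ c.AM M, PowerSeries.coeff 0 (c.ps f) = P := Iff.rfl

theorem WW_le (c : Pts k g) (M : ℕ) : WW c M ≤ degreeLT k (M + 1) := by
  rintro _ ⟨f, hf, rfl⟩
  rw [mem_degreeLT]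
  have h1 := hf 0
  rw [Nat.mul_zero, Nat.add_zero] at h1
  refine (degree_le_natDegree).trans_lt ?_
  exact_mod_cast Nat.lt_succ_of_le h1

instance (c : Pts k g) (M : ℕ) : FiniteDimensional k (WW c M) := by
  have h : FiniteDimensional k (degreeLT k (M + 1)) :=
    Module.Finite.equiv (degreeLTEquiv k (M + 1)).symm
  exact Submodule.finiteDimensional_of_le (WW_le c M)

theorem coeff_zero_TT (a : k) (P : k[X]) : PowerSeries.coeff 0 (TT a P) = P.eval a := by
  rw [PowerSeries.coeff_zero_eq_constantCoeff_apply, constantCoeff_TT]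

theorem eval_of_mem (c : Pts k g) (f : c.A) (i : Fin g) :
    (PowerSeries.coeff 0 (c.ps f)).eval (c.c (i, false)) =
      (PowerSeries.coeff 0 (c.ps f)).eval (c.c (i, true)) := by
  have h1 := ((mem_AA c.c _).1 (c.ps_mem f)).1 i
  have h2 := congrArg (fun z => PowerSeries.coeff 0 (PowerSeries.coeff 0 z)) h1
  rw [coeff_swap, coeff_EE, coeff_EE, pow_zero, pow_zero, one_mul, one_mul,
    coeff_zero_TT, coeff_zero_TT] at h2
  exact h2

/-- The evaluation map. -/
def evm (c : Pts k g) (M : ℕ) : degreeLT k (M + 1) →ₗ[k] (Fin g → k) where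
  toFun P := fun i => (P : k[X]).eval (c.c (i, false)) - (P : k[X]).eval (c.c (i, true))
  map_add' P Q := by
    ext i
    simp only [Submodule.coe_add, eval_add, Pi.add_apply]
    ring
  map_smul' a P := by
    ext i
    simp only [Submodule.coe_smul, eval_smul, smul_eq_mul, RingHom.id_apply, Pi.smul_apply]
    ring

theorem evm_apply (c : Pts k g) (M : ℕ) (P : degreeLT k (M + 1)) (i : Fin g) :
    evm c M P i = (P : k[X]).eval (c.c (i, false)) - (P : k[X]).eval (c.c (i, true)) := rfl

theorem evm_surjective (c : Pts k g) (M : ℕ) (hM : 2 * g ≤ M + 1) :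
    Function.Surjective (evm c M) := by
  intro v
  classical
  set r : Fin g × Bool → k := fun e => if e.2 then 0 else v e.1 with hr
  set P : k[X] := Lagrange.interpolate Finset.univ c.c r with hP
  have hinj : Set.InjOn c.c (Finset.univ : Finset (Fin g × Bool)) := c.inj.injOn
  have hdeg : P.degree < (Finset.univ : Finset (Fin g × Bool)).card :=
    Lagrange.degree_interpolate_lt r hinj
  have hcard : (Finset.univ : Finset (Fin g × Bool)).card = 2 * g := by
    simp [Finset.card_univ, Fintype.card_prod]
    ring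
  have hmem : P ∈ degreeLT k (M + 1) := by
    rw [mem_degreeLT]
    refine hdeg.trans_le ?_
    rw [hcard]
    exact_mod_cast hM
  refine ⟨⟨P, hmem⟩, ?_⟩
  ext i
  rw [evm_apply]
  simp only
  rw [hP, Lagrange.eval_interpolate_at_node r hinj (Finset.mem_univ (i, false)),
    Lagrange.eval_interpolate_at_node r hinj (Finset.mem_univ (i, true))]
  simp [hr]

theorem finrank_WW (c : Pts k g) (M : ℕ) (hM : 2 * g ≤ M + 1)
    (hlift : ∀ (P : k[X]), P.natDegree ≤ M →
      (∀ i, P.eval (c.c (i, false)) = P.eval (c.c (i, true))) →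
      ∃ f ∈ AA c.c, Bd g M f ∧ PowerSeries.coeff 0 f = P) :
    Module.finrank k (WW c M) + g = M + 1 := by
  have hfin : FiniteDimensional k (degreeLT k (M + 1)) :=
    Module.Finite.equiv (degreeLTEquiv k (M + 1)).symm
  have h1 := LinearMap.finrank_range_add_finrank_ker (evm c M)
  have h2 : Module.finrank k (degreeLT k (M + 1)) = M + 1 := by
    rw [(degreeLTEquiv k (M + 1)).finrank_eq]
    simp
  have h3 : LinearMap.range (evm c M) = ⊤ := LinearMap.range_eq_top.2 (evm_surjective c M hM)
  rw [h3, finrank_top, h2, Module.finrank_fin_fun] at h1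
  have h4 : (LinearMap.ker (evm c M)).map (degreeLT k (M + 1)).subtype = WW c M := by
    ext P
    rw [Submodule.mem_map]
    constructor
    · rintro ⟨⟨Q, hQ⟩, hker, rfl⟩
      rw [LinearMap.mem_ker] at hker
      simp only [Submodule.subtype_apply]
      have hdeg : Q.natDegree ≤ M := by
        rw [mem_degreeLT] at hQ
        by_cases hQ0 : Q = 0
        · rw [hQ0]
          simp
        · rw [degree_eq_natDegree hQ0] at hQ
          have : Q.natDegree < M + 1 := by exact_mod_cast hQ
          omega
      obtain ⟨f, hf, hb, h0⟩ := hlift Q hdeg (fun i => by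
        have := congrFun hker i
        rw [evm_apply] at this
        simpa [sub_eq_zero] using this)
      obtain ⟨a, ha⟩ := c.exists_ps hf
      refine ⟨a, ?_, ?_⟩
      · change Bd g M (c.ps a)
        rw [ha]
        exact hb
      · rw [ha]
        exact h0
    · intro hP
      have hle := WW_le c M hP
      obtain ⟨f, hf, rfl⟩ := hP
      refine ⟨⟨_, hle⟩, ?_, rfl⟩
      rw [LinearMap.mem_ker]
      ext i
      rw [evm_apply]
      simp only [Pi.zero_apply]
      rw [eval_of_mem c f i, sub_self]
  have h5 : Module.finrank k (LinearMap.ker (evm c M)) = Module.finrank k (WW c M) := by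
    rw [← h4]
    exact (Submodule.equivMapOfInjective _ (Submodule.subtype_injective _) _).finrank_eq
  rw [h5] at h1
  omega

theorem coeff_io_X_pow (c : Pts k g) (N n : ℕ) (hn : n < N) (f : PowerSeries k[X]) :
    PowerSeries.coeff n (io c.c (PowerSeries.X ^ N) * f) = 0 := by
  rw [map_pow, io_X, mul_pow, mul_assoc, ← map_pow, PowerSeries.coeff_C_mul,
    PowerSeries.coeff_X_pow_mul', if_neg (by omega), mul_zero]

theorem eq_zero_of_dvd (c : Pts k g) (f : c.A)
    (h : ∀ N : ℕ, ∃ f' : c.A, f = (PowerSeries.X ^ N : PowerSeries k) • f') : f = 0 := by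
  apply c.ps_injective
  rw [map_zero]
  ext n : 1
  obtain ⟨f', hf'⟩ := h (n + 1)
  rw [hf', ps_smul, coeff_io_X_pow c _ _ (Nat.lt_succ_self n), map_zero]

/-- EC-C4, from the two other modules. -/
theorem exists_lattice_of (c : Pts k g) (M : ℕ)
    (hdiv : ∀ f : PowerSeries k[X], f ∈ AA c.c → Bd g M f → PowerSeries.coeff 0 f = 0 →
      ∃ f' ∈ AA c.c, Bd g M f' ∧ f = io c.c PowerSeries.X * f')
    (hlift : 2 * g ≤ M + 1 → ∀ (P : k[X]), P.natDegree ≤ M →
      (∀ i, P.eval (c.c (i, false)) = P.eval (c.c (i, true))) →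
      ∃ f ∈ AA c.c, Bd g M f ∧ PowerSeries.coeff 0 f = P) :
    ∃ (n : ℕ) (e : Fin n → c.A),
    (∀ j, e j ∈ c.AM M) ∧ (∀ f ∈ c.AM M, ∃ r : Fin n → PowerSeries k, f = ∑ j, r j • e j) ∧
    LinearIndependent k (fun j => PowerSeries.coeff 0 (c.ps (e j))) ∧
    (2 * g ≤ M + 1 → n + g = M + 1) := by
  classical
  set b := Module.finBasis k (WW c M) with hb
  set n := Module.finrank k (WW c M) with hn
  have hex : ∀ j : Fin n, ∃ f ∈ c.AM M, PowerSeries.coeff 0 (c.ps f) = (b j : k[X]) :=
    fun j => (b j).2
  choose e he1 he2 using hex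
  refine ⟨n, e, he1, ?_, ?_, fun hM => finrank_WW c M hM (hlift hM)⟩
  · -- one step
    have hstep : ∀ f : c.A, f ∈ c.AM M → ∃ (a : Fin n → k) (f' : c.A), f' ∈ c.AM M ∧
        f = ∑ j, (PowerSeries.C (a j) : PowerSeries k) • e j +
          (PowerSeries.X : PowerSeries k) • f' := by
      intro f hf
      set w : WW c M := ⟨PowerSeries.coeff 0 (c.ps f), f, hf, rfl⟩ with hw
      set a : Fin n → k := fun j => b.repr w j with ha
      set f0 : c.A := f - ∑ j, (PowerSeries.C (a j) : PowerSeries k) • e j with hf0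
      have hf0M : f0 ∈ c.AM M :=
        AM_sub c hf (AM_sum c _ _ fun j _ => AM_C_smul c _ (he1 j))
      have hf00 : PowerSeries.coeff 0 (c.ps f0) = 0 := by
        rw [hf0, map_sub, map_sub, map_sum, map_sum]
        have h1 : ∑ j, PowerSeries.coeff 0
            (c.ps ((PowerSeries.C (a j) : PowerSeries k) • e j)) = (w : k[X]) := by
          have h2 := congrArg (fun z : WW c M => (z : k[X])) (b.sum_repr w)
          simp only [Submodule.coe_sum, Submodule.coe_smul] at h2
          rw [← h2]
          apply Finset.sum_congr rfl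
          intro j _
          rw [coeff_C_smul, he2 j, smul_eq_C_mul]
        rw [h1, hw, sub_self]
      obtain ⟨f', hf', hbd, hfe⟩ := hdiv (c.ps f0) (c.ps_mem f0) hf0M hf00
      obtain ⟨f'', hf''⟩ := c.exists_ps hf'
      refine ⟨a, f'', ?_, ?_⟩
      · change Bd g M (c.ps f'')
        rw [hf'']
        exact hbd
      · have h3 : f0 = (PowerSeries.X : PowerSeries k) • f'' := by
          apply c.ps_injective
          rw [ps_smul, hf'', hfe]
        rw [← h3, hf0]
        abel
    choose! A F hF1 hF2 using hstep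
    intro f hf
    -- the sequence of remainders
    set fs : ℕ → c.A := fun m => F^[m] f with hfs
    have hfs1 : ∀ m, fs m ∈ c.AM M := by
      intro m
      induction m with
      | zero => exact hf
      | succ m ih =>
        rw [hfs]
        simp only [Function.iterate_succ_apply']
        exact hF1 _ ih
    have hfs2 : ∀ m, fs m = ∑ j, (PowerSeries.C (A (fs m) j) : PowerSeries k) • e j +
        (PowerSeries.X : PowerSeries k) • fs (m + 1) := by
      intro m
      have h1 := hF2 (fs m) (hfs1 m)
      have h2 : fs (m + 1) = F (fs m) := by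
        rw [hfs]
        simp only [Function.iterate_succ_apply']
      rw [h2]
      exact h1
    set r : ℕ → Fin n → PowerSeries k := fun m j =>
      PowerSeries.mk fun l => A (fs (l + m)) j with hr
    have hr1 : ∀ m j, r m j = PowerSeries.C (A (fs m) j) + PowerSeries.X * r (m + 1) j := by
      intro m j
      ext l
      rcases l with _ | l
      · simp [hr]
      · rw [map_add, PowerSeries.coeff_C, if_neg (Nat.succ_ne_zero l),
          PowerSeries.coeff_succ_X_mul, zero_add, hr]
        simp only [PowerSeries.coeff_mk]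
        congr 2
        ring_nf
    have hkey : ∀ m, f - ∑ j, r 0 j • e j =
        (PowerSeries.X ^ m : PowerSeries k) • (fs m - ∑ j, r m j • e j) := by
      intro m
      induction m with
      | zero =>
        rw [pow_zero, one_smul]
        rfl
      | succ m ih =>
        rw [ih]
        have h1 : fs m - ∑ j, r m j • e j =
            (PowerSeries.X : PowerSeries k) • (fs (m + 1) - ∑ j, r (m + 1) j • e j) := by
          rw [hfs2 m]
          simp only [hr1 m]
          simp only [add_smul, Finset.sum_add_distrib, smul_sub, Finset.smul_sum, smul_smul]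
          abel
        rw [h1, smul_smul, ← pow_succ]
    refine ⟨r 0, ?_⟩
    have h0 := eq_zero_of_dvd c (f - ∑ j, r 0 j • e j) (fun N => ⟨_, hkey N⟩)
    exact sub_eq_zero.1 h0
  · have h1 : (fun j => PowerSeries.coeff 0 (c.ps (e j))) =
        (WW c M).subtype ∘ b := by
      funext j
      exact he2 j
    rw [h1]
    exact b.linearIndependent.map' _ (Submodule.ker_subtype _)

end core

end Pool.Agent.Helper18.EC
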